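import Pool.Agent.H668Z.SC.Side

set_option autoImplicit false

namespace Pool.Agent.H231Z.SC

open Pool.Agent.H668Z.SC GS

theorem thm_notAB : S_notAB := by
  intro G V _ _ X p q o h hinf
  by_contra hcon
  push Not at hcon
  have h1 : ∀ g g' : G, X.d (g • p) (g' • q) = 1 := by
    intro g g'
    obtain ⟨a, b, ha, hb, hab⟩ := hcon (g⁻¹ * g')
    have e : g' = g * a * b := by rw [mul_assoc, ← hab]; simp
    rw [e, mul_smul, hb, mul_smul, h.iso g, ← h.adj, ← h.iso a p q, ha]
  have hpo : p ≠ o := by simpa using h.po 1
  have hqo : q ≠ o := by simpa using h.qo 1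
  obtain ⟨e, he, he1⟩ := hinf.exists_notMem_finite (Set.finite_singleton 1)
  have hp' : e • p ≠ p := fun h2 => he1 (h.pair e p o hpo h2 he)
  have hne : ∀ g : G, g • q ≠ p := fun g h2 => by
    have := h1 1 g
    rw [one_smul, h2, X.d_self] at this
    omega
  refine hinf (Set.Finite.of_injOn (f := fun g : G => g • q) ?_ ?_ (h.fine p q 2 h.adj))
  · intro g _
    refine ⟨by simpa using h1 1 g, Av.step 1 q (e • p) _ (by simpa using hne 1) ?_
      (Av.step 0 _ (g • q) _ hp' (h1 e g).le (Av.refl 0 _ (hne g)))⟩
    rw [X.symm]
    simpa using (h1 e 1).le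
  · intro g hg g' hg' hgg
    have h2 : (g⁻¹ * g') • q = q := by
      rw [mul_smul, inv_smul_eq_iff]; exact hgg.symm
    have h3 : (g⁻¹ * g') • o = o := by
      rw [mul_smul, inv_smul_eq_iff, hg]; exact hg'
    exact inv_mul_eq_one.1 (h.pair _ q o hqo h2 h3)

inductive BV (E : Type) : Type
  | o : BV E
  | v : E → Bool → BV E

instance {E : Type} [Group E] : MulAction E (BV E) where
  smul e x := match x with
    | .o => .o
    | .v y b => .v (e * y) b
  one_smul x := by
    cases x with
    | o => rfl
    | v y b => exact congrArg (BV.v · b) (one_mul y)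
  mul_smul e f x := by
    cases x with
    | o => rfl
    | v y b => exact congrArg (BV.v · b) (mul_assoc e f y)

@[simp] theorem smul_o {E : Type} [Group E] (e : E) : e • (BV.o : BV E) = BV.o := rfl
@[simp] theorem smul_v {E : Type} [Group E] (e y : E) (b : Bool) :
    e • BV.v y b = BV.v (e * y) b := rfl

open Classical in
noncomputable def bd {E : Type} : BV E → BV E → ℕ
  | .o, .o => 0
  | .o, .v _ _ => 1
  | .v _ _, .o => 1
  | .v x b, .v y c => if x = y then (if b = c then 0 else 1) else 2

theorem bd_le {E : Type} (x y : BV E) : bd x y ≤ 2 := by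
  cases x <;> cases y <;> simp only [bd] <;> (try split_ifs) <;> omega

noncomputable def BX (E : Type) : GS (BV E) where
  d := bd
  d_self x := by cases x <;> simp [bd]
  eq_of_d x y h := by
    cases x <;> cases y <;> simp only [bd] at h
    · rfl
    · omega
    · omega
    · split_ifs at h with h1 h2
      rw [h1, h2]
  symm x y := by
    cases x <;> cases y <;> simp only [bd]
    split_ifs <;> simp_all
  tri x y z := by
    cases x <;> cases y <;> cases z <;> simp only [bd] <;> (try split_ifs) <;> simp_all
  step x y n h := by
    rcases n with _ | n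
    · exact ⟨y, h, by cases y <;> simp [bd]⟩
    · refine ⟨.o, ?_⟩
      cases x <;> cases y <;> simp only [bd] at h ⊢ <;> (try split_ifs at h) <;>
        first | omega | exact ⟨trivial, by omega⟩

theorem av_o {E : Type} {n : ℕ} {u w : BV E} (h : (BX E).Av .o n u w) :
    ∀ x b, u = .v x b → ∃ c, w = .v x c := by
  induction h with
  | refl n u _ => exact fun x b h => ⟨b, h⟩
  | step n u z w _ h2 h3 ih =>
    rintro x b rfl
    cases z with
    | o => exact absurd rfl h3.ne_left
    | v y c =>
      have : x = y := by
        by_contra hxy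
        simp [BX, bd, hxy] at h2
      exact ih x c (by rw [this])

theorem thm_base : S_base := by
  intro E _
  refine ⟨BV E, inferInstance, BX E, .v 1 true, .v 1 false, .o,
    ⟨?_, ⟨2, fun x y w z _ => ⟨x, Or.inl (btw_left _ _), bd_le _ _⟩⟩, ?_, ?_, ?_, ?_, ?_, ?_, ?_,
      ?_, ?_⟩, fun _ => rfl, by simp, by simp⟩
  · intro g x y
    cases x <;> cases y <;> simp only [BX, bd, smul_v, smul_o]
    split_ifs <;> simp_all
  · intro c u n hcu
    cases c with
    | o =>
      cases u with
      | o => simp [BX, bd] at hcu
      | v x b =>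
        refine (Set.finite_range (fun c => BV.v x c)).subset ?_
        rintro w ⟨-, hw⟩
        obtain ⟨c, rfl⟩ := av_o hw x b rfl
        exact ⟨c, rfl⟩
    | v x b =>
      refine ((Set.finite_range (fun c => BV.v x c)).insert .o).subset ?_
      rintro w ⟨hw, -⟩
      cases w with
      | o => exact Or.inl rfl
      | v y c =>
        have : x = y := by
          by_contra hxy
          simp [BX, bd, hxy] at hw
        exact Or.inr ⟨c, by rw [this]⟩
  · have hf : (insert BV.o (Set.range (fun c => BV.v (1 : E) c))).Finite :=
      (Set.finite_range _).insert _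
    refine ⟨_, hf.prod hf, fun a b hab => ?_⟩
    cases a with
    | o =>
      cases b with
      | o => simp [BX, bd] at hab
      | v y c => exact ⟨y⁻¹, by simp⟩
    | v x c =>
      cases b with
      | o => exact ⟨x⁻¹, by simp⟩
      | v y c' =>
        have : x = y := by
          by_contra hxy
          simp [BX, bd, hxy] at hab
        exact ⟨x⁻¹, by simp [this]⟩
  · intro g a b hab ha hb
    cases a with
    | v x c => simpa using ha
    | o =>
      cases b with
      | o => exact absurd rfl hab
      | v y c => simpa using hb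
  · simp [BX, bd]
  · intro g
    simp only [BX, bd, smul_v]
    split_ifs <;> simp_all
  · intro g
    simp only [BX, bd, smul_v]
    split_ifs <;> simp_all
  · simp
  · simp
  · simp

end Pool.Agent.H231Z.SC
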